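import Pool.Agent.HHH.Assembly
import Pool.Agent.HHH.A1
import Pool.Agent.HHH.A2
import Pool.Agent.HHH.A3
import Pool.Agent.HHH.A4
import Pool.Agent.HHH.A5
import Pool.Agent.HHH.A6
import Pool.Agent.HHH.A6c
import Pool.Agent.HHH.B1
import Pool.Agent.HHH.B2
import Pool.Agent.HHH.B3
import Pool.Agent.HHH.B4
import Pool.Agent.HHH.B5
import Pool.Agent.HHH.B6

/-!
# MP_96ff56_al, negated form of Q1

For `(d, n) = (7, 4)` and every `V = ℂ^N` with `N ≥ 4`, the module `S_{(7^4)} V` occurs in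
`S^7(S^4 V)`, and the Hermite-Hadamard-Howe map `h_{7,4}` vanishes identically on the
`S_{(7^4)} V`-isotypic component.
-/

namespace Pool.Agent.Results.MP_96ff56_al.KernelSevenFour

open Pool.Agent.HHH

theorem result : ∀ N : ℕ, 4 ≤ N →
    isotypic 7 4 N ≠ ⊥ ∧ ∀ T ∈ isotypic 7 4 N, hhh T = 0 :=
  (Main_of A1_proof A2_proof A3_proof A4_proof (A5_proof A1_proof)
    (A6_proof A1_proof A6c_proof) B1_proof (B3_proof B2_proof) (B5_proof B4_proof) B6_proof).1

end Pool.Agent.Results.MP_96ff56_al.KernelSevenFour
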